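import Pool.Agent.H71.CQ.Basic

/-!
# DEC: every similar structure has multiplicities (board cqt_modules)
-/

set_option autoImplicit false

open Set

namespace Pool.Agent.H35.CQ

open Pool.Agent.H71.CQ

theorem num (α : Type) [Countable α] : ∃ m : ℕ∞, Nonempty (α ≃ {n : ℕ // (n : ℕ∞) < m}) := by
  rcases finite_or_infinite α with h | h
  · refine ⟨(Nat.card α : ℕ∞), ⟨(Finite.equivFin α).trans (Fin.equivSubtype.trans
      (Equiv.subtypeEquivRight fun n => ?_))⟩⟩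
    rw [Nat.cast_lt]
  · refine ⟨⊤, ?_⟩
    have e : ℕ ≃ {n : ℕ // (n : ℕ∞) < ⊤} :=
      (Equiv.subtypeUnivEquiv fun n => ENat.natCast_lt_top n).symm
    obtain ⟨e'⟩ := nonempty_equiv_of_countable (α := α) (β := ℕ)
    exact ⟨e'.trans e⟩

theorem pf_DEC : T_DEC := by
  intro L N hN hfre hun e0 ι e g x hR E G hE hS hG
  classical
  -- the components of E
  let V := {y : ℕ // ¬ Wp N E y}
  let s : Setoid V := ⟨fun a b => Cm N E a.1 b.1, fun a => cm_refl a.1, fun h => h.symm,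
    fun h h' => h.trans h'⟩
  have huniq : ∀ (a : ℕ) (i j : ι), PI N (e i) E ((g i).symm.trans G) (x i) a →
      PI N (e j) E ((g j).symm.trans G) (x j) a → i = j := by
    intro a i j hi hj
    apply hR.un i j
    have h := hi.trans hj.symm
    have e1 : ((g i).symm.trans G).trans ((g j).symm.trans G).symm = (g i).symm.trans (g j) := by
      ext k
      simp
    rw [e1] at h
    exact h
  have hty : ∀ q : Quotient s, ∃ i, PI N (e i) E ((g i).symm.trans G) (x i) q.out.1 :=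
    fun q => hR.ex E G q.out.1 hE hS hG q.out.2
  choose ty hty using hty
  have hm : ∀ i : ι, ∃ m : ℕ∞, Nonempty ({q : Quotient s // ty q = i} ≃ {n : ℕ // (n : ℕ∞) < m}) :=
    fun i => num _
  choose m hm using hm
  let φ : ∀ i : ι, {q : Quotient s // ty q = i} ≃ {n : ℕ // (n : ℕ∞) < m i} := fun i => (hm i).some
  have hf : ∀ (i : ι) (q : {q : Quotient s // ty q = i}),
      ∃ f : {y // Cm N (e i) (x i) y} ≃ {y // Cm N E q.1.out.1 y},
        (∀ y z, E (f y) (f z) = e i y z) ∧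
          ∀ k y, E (((g i).symm.trans G) k) (f y) = e i k y := by
    rintro i ⟨q, rfl⟩
    exact hty q
  choose f hf1 hf2 using hf
  let Θ : Am N e0 e x m → ℕ := fun a => match a with
    | ⟨.inl k, _⟩ => (G k).1
    | ⟨.inr v, h⟩ => (f v.1 ((φ v.1).symm ⟨v.2.1, h⟩) v.2.2).1
  have hΘl : ∀ (k : {k // Wp N e0 k}) (h : (Sum.inl k : TV N e0 e x) ∈ Am N e0 e x m),
      Θ ⟨Sum.inl k, h⟩ = (G k).1 := fun _ _ => rfl
  have hΘr : ∀ (v : Σ i : ι, ℕ × {y // Cm N (e i) (x i) y})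
      (h : (Sum.inr v : TV N e0 e x) ∈ Am N e0 e x m),
      Θ ⟨Sum.inr v, h⟩ = (f v.1 ((φ v.1).symm ⟨v.2.1, h⟩) v.2.2).1 := fun _ _ => rfl
  have hcm : ∀ (i : ι) (q : {q : Quotient s // ty q = i}) (y : {y // Cm N (e i) (x i) y}),
      Cm N E q.1.out.1 (f i q y).1 := fun i q y => (f i q y).2
  have hnw : ∀ (i : ι) (q : {q : Quotient s // ty q = i}) (y : {y // Cm N (e i) (x i) y}),
      ¬ Wp N E (f i q y).1 := fun i q y => (hcm i q y).not_wp q.1.out.2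
  have hq : ∀ q q' : Quotient s, Cm N E q.out.1 q'.out.1 → q = q' := by
    intro q q' h
    rw [← Quotient.out_eq q, ← Quotient.out_eq q']
    exact Quotient.sound h
  -- points of the same component
  have hsame : ∀ (v w : Σ i : ι, ℕ × {y // Cm N (e i) (x i) y})
      (hv : (Sum.inr v : TV N e0 e x) ∈ Am N e0 e x m)
      (hw : (Sum.inr w : TV N e0 e x) ∈ Am N e0 e x m),
      Cm N E (Θ ⟨Sum.inr v, hv⟩) (Θ ⟨Sum.inr w, hw⟩) → v.1 = w.1 ∧ v.2.1 = w.2.1 := by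
    rintro ⟨i, n, y⟩ ⟨j, n', y'⟩ hv hw h
    rw [hΘr, hΘr] at h
    have h1 := hq _ _ (((hcm _ _ _).trans h).trans (hcm _ _ _).symm)
    have h2 : i = j := by
      have a1 := ((φ i).symm ⟨n, hv⟩).2
      have a2 := ((φ j).symm ⟨n', hw⟩).2
      rw [← a1, ← a2]
      exact congrArg ty h1
    subst h2
    refine ⟨rfl, ?_⟩
    have h3 : (φ i).symm ⟨n, hv⟩ = (φ i).symm ⟨n', hw⟩ := Subtype.ext h1
    have h4 := (φ i).symm.injective h3
    exact congrArg Subtype.val h4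
  have hinj : Function.Injective Θ := by
    rintro ⟨a | v, ha⟩ ⟨b | w, hb⟩ h
    · rw [hΘl a ha, hΘl b hb] at h
      have h1 : G a = G b := Subtype.ext h
      have h2 := G.injective h1
      subst h2
      rfl
    · exfalso
      rw [hΘl a ha, hΘr w hb] at h
      apply hnw w.1 ((φ w.1).symm ⟨w.2.1, hb⟩) w.2.2
      rw [← h]
      exact (G a).2
    · exfalso
      rw [hΘl b hb, hΘr v ha] at h
      apply hnw v.1 ((φ v.1).symm ⟨v.2.1, ha⟩) v.2.2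
      rw [h]
      exact (G b).2
    · have h1 : Cm N E (Θ ⟨Sum.inr v, ha⟩) (Θ ⟨Sum.inr w, hb⟩) := by
        rw [h]
        exact cm_refl _
      obtain ⟨h2, h3⟩ := hsame v w ha hb h1
      obtain ⟨i, n, y⟩ := v
      obtain ⟨j, n', y'⟩ := w
      simp only at h2 h3
      subst h2
      subst h3
      rw [hΘr, hΘr] at h
      have h4 := (f i ((φ i).symm ⟨n, ha⟩)).injective (Subtype.ext h)
      subst h4
      rfl
  have hsur : Function.Surjective Θ := by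
    intro z
    by_cases hz : Wp N E z
    · refine ⟨⟨Sum.inl (G.symm ⟨z, hz⟩), trivial⟩, ?_⟩
      change (G (G.symm ⟨z, hz⟩)).1 = z
      rw [G.apply_symm_apply]
    · let q : Quotient s := Quotient.mk s ⟨z, hz⟩
      have h1 : Cm N E q.out.1 z := Quotient.exact (Quotient.out_eq q)
      let n := φ (ty q) ⟨q, rfl⟩
      let y := (f (ty q) ⟨q, rfl⟩).symm ⟨z, h1⟩
      refine ⟨⟨Sum.inr ⟨ty q, n.1, y⟩, n.2⟩, ?_⟩
      have h2 : (φ (ty q)).symm ⟨n.1, n.2⟩ = ⟨q, rfl⟩ := (φ (ty q)).symm_apply_apply _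
      change (f (ty q) ((φ (ty q)).symm ⟨n.1, n.2⟩) y).1 = z
      rw [h2]
      change (f (ty q) ⟨q, rfl⟩ ((f (ty q) ⟨q, rfl⟩).symm ⟨z, h1⟩)).1 = z
      rw [Equiv.apply_symm_apply]
  refine ⟨m, Iso.symm ⟨Equiv.ofBijective Θ ⟨hinj, hsur⟩, ?_⟩⟩
  have hwl : ∀ (k : {k // Wp N e0 k}) (v : Σ i : ι, ℕ × {y // Cm N (e i) (x i) y})
      (hv : (Sum.inr v : TV N e0 e x) ∈ Am N e0 e x m),
      E (G k).1 (Θ ⟨Sum.inr v, hv⟩) = e v.1 (g v.1 k).1 v.2.2.1 := by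
    intro k v hv
    rw [hΘr]
    have h := hf2 v.1 ((φ v.1).symm ⟨v.2.1, hv⟩) (g v.1 k) v.2.2
    rw [Equiv.trans_apply, Equiv.symm_apply_apply] at h
    exact h
  rintro ⟨a | v, ha⟩ ⟨b | w, hb⟩
  · exact hG a b
  · change E (Θ ⟨Sum.inl a, ha⟩) (Θ ⟨Sum.inr w, hb⟩) = e w.1 (g w.1 a) w.2.2
    exact hwl a w hb
  · change E (Θ ⟨Sum.inr v, ha⟩) (Θ ⟨Sum.inl b, hb⟩) = e v.1 v.2.2 (g v.1 b)
    rw [hΘl b hb, hE.rev (G b).1 (Θ ⟨Sum.inr v, ha⟩), hwl b v ha,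
      (hR.m v.1).rev (g v.1 b).1 v.2.2.1]
  · change E (Θ ⟨Sum.inr v, ha⟩) (Θ ⟨Sum.inr w, hb⟩) =
      if v.1 = w.1 ∧ v.2.1 = w.2.1 then e v.1 v.2.2 w.2.2
        else fr N (e v.1 v.2.2 v.2.2) (e w.1 w.2.2 w.2.2)
    have hd : ∀ (v : Σ i : ι, ℕ × {y // Cm N (e i) (x i) y})
        (hv : (Sum.inr v : TV N e0 e x) ∈ Am N e0 e x m),
        E (Θ ⟨Sum.inr v, hv⟩) (Θ ⟨Sum.inr v, hv⟩) = e v.1 v.2.2 v.2.2 := by
      intro v hv
      rw [hΘr]
      exact hf1 _ _ _ _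
    split_ifs with hc
    · obtain ⟨i, n, y⟩ := v
      obtain ⟨j, n', y'⟩ := w
      obtain ⟨h2, h3⟩ := hc
      simp only at h2 h3
      subst h2
      subst h3
      rw [hΘr, hΘr]
      exact hf1 _ _ _ _
    · have hnc : ¬ Cm N E (Θ ⟨Sum.inr v, ha⟩) (Θ ⟨Sum.inr w, hb⟩) := fun h =>
        hc (hsame v w ha hb h)
      have hv1 : ¬ Wp N E (Θ ⟨Sum.inr v, ha⟩) := by
        rw [hΘr]; exact hnw _ _ _
      have hw1 : ¬ Wp N E (Θ ⟨Sum.inr w, hb⟩) := by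
        rw [hΘr]; exact hnw _ _ _
      have h1 := fr_of_cm hE hv1 hw1 hnc
      have h2 := hun E E hE hE (sim_refl E) _ _ hv1 hw1
      rw [hd v ha, hd w hb] at h1 h2
      exact (fr_eq h2 h1).symm

end Pool.Agent.H35.CQ
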